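import Pool.Agent.CBG.StmtsB

/-!
Squad CBG (MP_148648_gt), row PSR: metrics with two factors.
-/

set_option autoImplicit false
set_option maxSynthPendingDepth 3

open scoped Manifold ContDiff Topology
open Set Filter MeasureTheory

namespace Pool.Agent.CBG.H46

theorem psr (vfx : VfxStmt) (dec : DecStmt) (glh : GlhStmt) : PsrStmt := by
  intro n E _ _ _ _ _ _ Φ hΦ g₀ g ψ ρ hW hinv hmin
  obtain ⟨_, _, _, v4, _, v6⟩ := vfx n E Φ hΦ
  have hor_iff : ∀ (x : E) (u : TangentSpace (𝓡 n) x), Hor g Φ ⊤ x u → Hor g₀ Φ ⊤ x u := by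
    intro x u hu
    obtain ⟨c, v, hv, hu2⟩ := dec n E Φ hΦ g₀ x u
    have hgv := hW.ort x v hv
    have h1 : g.inner x (vf (n := n) Φ c x) u = 0 := hu c trivial
    have h2 : g.inner x (vf (n := n) Φ c x) v = 0 := hgv c trivial
    have h3 : g.inner x (vf (n := n) Φ c x) (vf (n := n) Φ c x) = 0 := by
      rw [hu2] at h1
      have h4 := (g.inner x (vf (n := n) Φ c x)).map_add v
        (show TangentSpace (𝓡 n) x from vf (n := n) Φ c x)
      have h5 : g.inner x (vf (n := n) Φ c x) v +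
          g.inner x (vf (n := n) Φ c x) (vf (n := n) Φ c x) = 0 := h4.symm.trans h1
      linarith
    have hc : c = 0 := by
      by_contra hc
      have h4 : 0 < g.inner x (vf (n := n) Φ c x) (vf (n := n) Φ c x) := v6 g c x hc
      linarith
    have h0 : vf (n := n) Φ c x = 0 := by
      rw [hc]
      unfold vf
      exact map_zero _
    have h5 : u = v := by
      rw [hu2]
      have h6 : (show TangentSpace (𝓡 n) x from vf (n := n) Φ c x) = 0 := h0
      rw [h6, add_zero]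
    rw [h5]
    exact hv
  have hpres : ∀ (t : ℝ × ℝ) (x : E) (u : TangentSpace (𝓡 n) x), Hor g₀ Φ ⊤ x u →
      Hor g₀ Φ ⊤ (Φ t x) (mfderiv (𝓡 n) (𝓡 n) (Φ t) x u) := by
    intro t x u hu b hb
    have h1 : vf (n := n) Φ b (Φ t x) =
        (show Ed n from mfderiv (𝓡 n) (𝓡 n) (Φ t) x (vf (n := n) Φ b x)) := (v4 t b x).symm
    rw [h1]
    exact (hinv t x _ u).trans (hu b hb)
  have hhinv : ∀ (t : ℝ × ℝ) (x : E) (a b : ℝ × ℝ), hh g₀ Φ a b (Φ t x) = hh g₀ Φ a b x := by
    intro t x a b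
    unfold hh
    have h1 : vf (n := n) Φ a (Φ t x) =
        (show Ed n from mfderiv (𝓡 n) (𝓡 n) (Φ t) x (vf (n := n) Φ a x)) := (v4 t a x).symm
    have h2 : vf (n := n) Φ b (Φ t x) =
        (show Ed n from mfderiv (𝓡 n) (𝓡 n) (Φ t) x (vf (n := n) Φ b x)) := (v4 t b x).symm
    rw [h1, h2]
    exact hinv t x _ _
  have hnn : ∀ (x : E) (u : TangentSpace (𝓡 n) x), 0 ≤ g₀.inner x u u := by
    intro x u
    by_cases hu : u = 0
    · rw [hu]
      exact le_of_eq (map_zero (g₀.inner x 0)).symm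
    · exact (g₀.pos x u hu).le
  refine glh n E Φ hΦ g ?_ ?_ ?_
  · intro t x u hu
    exact hW.ort _ _ (hpres t x u (hor_iff x u hu))
  · intro x a ha
    obtain ⟨s, hs⟩ := hmin x
    refine ⟨s, fun t => ⟨?_, ?_⟩⟩
    · rw [hW.ver, hW.ver, hhinv, hhinv]
      exact mul_le_mul_of_nonneg_right (hs t).2 (v6 g₀ a x ha).le
    · intro u hu
      have hu0 := hor_iff _ u hu
      unfold Exp
      rw [hW.hor _ u u hu0 hu0, hW.hor _ _ _ (hpres t _ u hu0) (hpres t _ u hu0), hinv]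
      have h1 : Φ t (Φ s x) = Φ (t + s) x := (hΦ.add t s x).symm
      rw [h1]
      exact mul_le_mul_of_nonneg_right (hs (t + s)).1 (hnn _ u)
  · right
    intro t x
    refine ⟨ρ (Φ t x) / ρ x, fun a b => ?_⟩
    rw [hW.ver, hW.ver, hhinv]
    have := (hW.rho x).ne'
    field_simp

end Pool.Agent.CBG.H46
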